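import Mathlib
import Pool.Agent.H547R3.Sub.Tqk2

set_option autoImplicit false

namespace Pool.Agent.Results.MP_7f88e4_nt.PiecesUniformInK

/-- The `3x+k` map on the integers. -/
def T (k x : ℤ) : ℤ := if x % 2 = 0 then x / 2 else (3 * x + k) / 2

/-- The factor `w a, w (a+1), ..., w (b-1)` of the sequence `w` has period `π`. -/
def HasPeriod (w : ℕ → ℤ) (π a b : ℕ) : Prop := ∀ j, a ≤ j → j + π < b → w (j + π) = w j

/-- The word `w 0, w 1, ..., w (n-1)` is a concatenation of `m` words (cut at `0 = t 0 ≤ t 1 ≤ ... ≤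
t m = n`), each of which has some period `π` with `1 ≤ π ≤ ℓ`. -/
def Splits (w : ℕ → ℤ) (ℓ m n : ℕ) : Prop :=
  ∃ t : ℕ → ℕ, t 0 = 0 ∧ t m = n ∧ (∀ i < m, t i ≤ t (i + 1)) ∧
    ∀ i < m, ∃ π, 1 ≤ π ∧ π ≤ ℓ ∧ HasPeriod w π (t i) (t (i + 1))

open Pool.Agent.H547R3.Sub in
lemma T_eq (k : ℤ) : T k = Tm (3 : ℕ) k := by
  funext x; simp [T, Tm]

open Pool.Agent.H547R3.Sub in
lemma dec_of_splits {k x : ℤ} {ℓ m n : ℕ} (h : Splits (fun i => (T k)^[i] x % 2) ℓ m n) :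
    Dec (par (3 : ℕ) k x) ℓ m 0 n := by
  obtain ⟨t, h0, hm, hmono, hper⟩ := h
  refine ⟨t, h0, hm, hmono, fun i hi => ?_⟩
  obtain ⟨π, h1, h2, h3⟩ := hper i hi
  refine ⟨π, h1, h2, fun j hj1 hj2 => ?_⟩
  have h4 := h3 j hj1 hj2
  simp only [T_eq] at h4
  exact par_int _ _ _ _ _ h4

open Pool.Agent.H547R3.Sub in
/-- For every `C > 0` there is `A` such that for all odd `k`: if an integer `x` is periodic under the
`3x+k` map with least period `p`, and its parity word over the period is a concatenation of `m` words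
each having a period at most `ℓ`, then `m ≥ C log (p / (ℓ + log |k| + (1 + log p) ^ 2)) - A`. -/
theorem result (C : ℝ) (hC : 0 < C) :
    ∃ A : ℝ, ∀ k : ℤ, k % 2 = 1 → ∀ (x : ℤ) (p m ℓ : ℕ), 1 ≤ p → (T k)^[p] x = x →
      (∀ j, 1 ≤ j → j < p → (T k)^[j] x ≠ x) →
      Splits (fun i => (T k)^[i] x % 2) ℓ m p →
      C * Real.log (p / (ℓ + Real.log |(k : ℝ)| + (1 + Real.log p) ^ 2)) ≤ m + A := by
  obtain ⟨A, hA, h⟩ := cycleT2 (q := 3) Nat.prime_three (by norm_num) C hC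
  refine ⟨C * Real.log A, fun k hk x p m ℓ hp hper hprim hS => ?_⟩
  have hD := dec_of_splits hS
  rw [T_eq] at hper hprim
  have h1 := h k hk x p m ℓ hp hper hprim hD
  have hk1 : (1 : ℝ) ≤ |(k : ℝ)| := by
    have h1 : k ≠ 0 := by rintro rfl; simp at hk
    have h2 : 1 ≤ |k| := Int.one_le_abs h1
    exact_mod_cast h2
  have hlogk : 0 ≤ Real.log |(k : ℝ)| := Real.log_nonneg hk1
  have hpR : (1 : ℝ) ≤ p := by exact_mod_cast hp
  have hlogp : 0 ≤ Real.log p := Real.log_nonneg hpR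
  have hℓ0 : (0 : ℝ) ≤ ℓ := Nat.cast_nonneg _
  have hS0 : (0 : ℝ) < ℓ + Real.log |(k : ℝ)| + (1 + Real.log p) ^ 2 := by positivity
  have h2 : Real.log (p / (ℓ + Real.log |(k : ℝ)| + (1 + Real.log p) ^ 2)) ≤
      Real.log (A * Real.exp (m / C)) := by
    apply Real.log_le_log (by positivity)
    rw [div_le_iff₀ hS0]
    linarith
  rw [Real.log_mul hA.ne' (Real.exp_pos _).ne', Real.log_exp] at h2
  have h3 := mul_le_mul_of_nonneg_left h2 hC.le
  have h4 : C * (Real.log A + m / C) = m + C * Real.log A := by field_simp; ring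
  linarith

end Pool.Agent.Results.MP_7f88e4_nt.PiecesUniformInK
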