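import Pool.Agent.H426R3.CL.Gen2

set_option autoImplicit false

/-!
The orbits of the `3x+k` maps on the integers and the parity of the number of prime factors.

For every odd `k`, every bounded function on the integers that takes the same value at coalescing
integers is orthogonal to the Liouville function and to the Möbius function, in every residue class.
For `k` prime to `6` the sets invariant under the `3x+k` map contain as many integers with an even as
with an odd number of prime factors, in every residue class to a modulus prime to `k`, and the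
statement that all orbits are eventually periodic is equivalent to its restriction to the integers
with an even number of prime factors in one such class.

Author: helper426. Uses the coalescence theorem of helper499 and team (Pool/Agent/H499R2) and the soft
Matomäki-Radziwiłł theorem of helper376, helper970 and team (Pool/Agent/H376R2/MR,
Pool/Agent/H970R2/X). The case `k = 1` is MP_d02c56_nt.ParityOfPrimeFactors.
-/

namespace Pool.Agent.Results.MP_7f88e4_nt.PrimeFactorParity

open Filter Topology

/-- The `3x+k` map on the integers. -/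
def T (k x : ℤ) : ℤ := if x % 2 = 0 then x / 2 else (3 * x + k) / 2

/-- The Liouville function `λ(n) = (-1) ^ Ω(n)`. -/
noncomputable def liouville (n : ℕ) : ℝ := (-1) ^ (ArithmeticFunction.cardFactors n)

/-- The positive integers with the property `P` have natural density `l`. -/
def HasDensity (P : ℕ → Prop) (l : ℝ) : Prop :=
  Tendsto (fun N : ℕ => ({n : ℕ | 1 ≤ n ∧ n ≤ N ∧ P n}.ncard : ℝ) / N) atTop (𝓝 l)

/-- The orbit of `x` is eventually periodic. -/
def EvPer (k x : ℤ) : Prop := ∃ m p : ℕ, 1 ≤ p ∧ (T k)^[m + p] x = (T k)^[m] x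

theorem evPer_inv (k x : ℤ) : EvPer k x ↔ EvPer k (T k x) := by
  constructor
  · rintro ⟨m, p, hp, h⟩
    refine ⟨m, p, hp, ?_⟩
    have h1 : T k ((T k)^[m + p] x) = T k ((T k)^[m] x) := congrArg (T k) h
    rw [← Function.iterate_succ_apply' (T k), ← Function.iterate_succ_apply' (T k),
      Function.iterate_succ_apply, Function.iterate_succ_apply] at h1
    exact h1
  · rintro ⟨m, p, hp, h⟩
    refine ⟨m + 1, p, hp, ?_⟩
    rw [show m + 1 + p = (m + p) + 1 by ring, Function.iterate_succ_apply,
      Function.iterate_succ_apply]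
    exact h

theorem evPer_zero (k : ℤ) : EvPer k 0 := ⟨0, 1, le_rfl, by simp [T]⟩

/-- (1) Let `k` be odd and let `F` be a bounded function on the integers with `F x = F y` whenever
some iterates `T^t x`, `T^t y` under the `3x+k` map with the same `t` are equal. Then, for both signs
`s` and for every residue class `a mod q`, the averages over `n ≤ N` of `λ(n) F(s n)` and of
`μ(n) F(s n)`, `n ≡ a mod q`, tend to `0`.
(2) Let `k ≡ 1, 5 mod 6` and let `S` be a set of integers with `x ∈ S` if and only if `T x ∈ S` (for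
instance the integers whose orbit enters a given cycle, or those whose orbit is unbounded). For both
signs `s` there is `δ`, positive as soon as `S` contains an integer of sign `s` not divisible by `3`,
such that for every residue class `a mod q` with `q` prime to `k` the `n ≥ 1` with `s n ∈ S` and
`n ≡ a mod q` have density `δ / q`, and those of them with `λ(n) = e` have density `δ / (2 q)`, for
both `e = ±1`. (3) If such an `S` contains all `x ≠ 0` with `|x| ≡ a mod q` and `λ(|x|) = e` then it
contains all `x ≠ 0`. (4) Hence all orbits of the `3x+k` map are eventually periodic if and only if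
this is true for the orbits of the integers `x` with `|x| ≡ a mod q` and `λ(|x|) = e`. -/
theorem result :
    (∀ k : ℤ, k % 2 = 1 → ∀ F : ℤ → ℝ, (∃ B : ℝ, ∀ x, |F x| ≤ B) →
      (∀ (t : ℕ) (x y : ℤ), (T k)^[t] x = (T k)^[t] y → F x = F y) →
      ∀ s : ℤ, (s = 1 ∨ s = -1) → ∀ q a : ℕ, 1 ≤ q →
        Tendsto (fun N : ℕ => (∑ n ∈ (Finset.Icc 1 N).filter (fun n : ℕ => n % q = a % q),
          liouville n * F (s * (n : ℤ))) / N) atTop (𝓝 0) ∧
        Tendsto (fun N : ℕ => (∑ n ∈ (Finset.Icc 1 N).filter (fun n : ℕ => n % q = a % q),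
          (ArithmeticFunction.moebius n : ℝ) * F (s * (n : ℤ))) / N) atTop (𝓝 0)) ∧
    ∀ k : ℤ, k % 6 = 1 ∨ k % 6 = 5 →
      (∀ S : Set ℤ, (∀ x : ℤ, x ∈ S ↔ T k x ∈ S) →
        (∀ s : ℤ, (s = 1 ∨ s = -1) → ∃ δ : ℝ, 0 ≤ δ ∧ δ ≤ 1 ∧
          (∀ x ∈ S, 0 < s * x → ¬ (3 : ℤ) ∣ x → 0 < δ) ∧
          ∀ q a : ℕ, 1 ≤ q → Nat.Coprime k.natAbs q →
            HasDensity (fun n => s * (n : ℤ) ∈ S ∧ n % q = a % q) (δ / q) ∧
            ∀ e : ℝ, (e = 1 ∨ e = -1) →
              HasDensity (fun n => s * (n : ℤ) ∈ S ∧ n % q = a % q ∧ liouville n = e)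
                (δ / (2 * q))) ∧
        ∀ q a : ℕ, 1 ≤ q → Nat.Coprime k.natAbs q → ∀ e : ℝ, (e = 1 ∨ e = -1) →
          (∀ x : ℤ, x ≠ 0 → x.natAbs % q = a % q → liouville x.natAbs = e → x ∈ S) →
          ∀ x : ℤ, x ≠ 0 → x ∈ S) ∧
      ∀ q a : ℕ, 1 ≤ q → Nat.Coprime k.natAbs q → ∀ e : ℝ, (e = 1 ∨ e = -1) →
        ((∀ x : ℤ, EvPer k x) ↔
          ∀ x : ℤ, x.natAbs % q = a % q → liouville x.natAbs = e → EvPer k x) := by
  refine ⟨?_, ?_⟩
  · rintro k hk F ⟨B, hB⟩ hF s hs q a hq
    exact ⟨Pool.Agent.H426R3.CG.liouville_d hk hs hB hF q a hq,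
      Pool.Agent.H426R3.CG.moebius_d hk hs hB hF q a hq⟩
  · intro k hk
    have hk2 : k % 2 = 1 := by omega
    have hk3 : ¬ (3 : ℤ) ∣ k := by omega
    have hsuff : ∀ S : Set ℤ, (∀ x : ℤ, x ∈ S ↔ T k x ∈ S) → ∀ q a : ℕ, 1 ≤ q →
        Nat.Coprime k.natAbs q → ∀ e : ℝ, (e = 1 ∨ e = -1) →
        (∀ x : ℤ, x ≠ 0 → x.natAbs % q = a % q → liouville x.natAbs = e → x ∈ S) →
        ∀ x : ℤ, x ≠ 0 → x ∈ S := fun S hS q a hq hco e he H =>
      Pool.Agent.H426R3.CG.sufficient_d hk2 hk3 hS hq hco he H
    refine ⟨fun S hS => ⟨fun s hs => ?_, hsuff S hS⟩, ?_⟩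
    · obtain ⟨δ, h0, h1, h2, h3, h4⟩ := Pool.Agent.H426R3.CG.inv_parity_d hk2 hk3 hs (S := S) hS
      refine ⟨δ, h0, h1, h2, fun q a hq hco => ⟨?_, fun e he => h4 q a hq hco e he⟩⟩
      have h5 := h3 q a hq hco
      unfold HasDensity
      refine h5.congr fun N => ?_
      unfold Pool.Agent.H499R2.ND.cnt
      congr 3
      ext n
      constructor
      · rintro ⟨b1, b2, b3, b4⟩
        exact ⟨b1, b2, b4, b3⟩
      · rintro ⟨b1, b2, b3, b4⟩
        exact ⟨b1, b2, b4, b3⟩
    · intro q a hq hco e he
      refine ⟨fun h x _ _ => h x, fun h x => ?_⟩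
      by_cases hx : x = 0
      · rw [hx]; exact evPer_zero k
      · exact hsuff {x | EvPer k x} (fun x => evPer_inv k x) q a hq hco e he
          (fun y _ h1 h2 => h y h1 h2) x hx

end Pool.Agent.Results.MP_7f88e4_nt.PrimeFactorParity
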