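import Mathlib
import Pool.Agent.H284R3.RD.Res4
import Pool.Agent.H499R2.NDK

set_option autoImplicit false

namespace Pool.Agent.Results.MP_7f88e4_nt.ResidueClasses

open Filter Topology

/-- the `3x+k` map on the integers -/
def T (k x : ℤ) : ℤ := if x % 2 = 0 then x / 2 else (3 * x + k) / 2

/-- the orbit of `n` is eventually periodic -/
def EvPer (k n : ℤ) : Prop := ∃ m p : ℕ, 1 ≤ p ∧ (T k)^[m + p] n = (T k)^[m] n

/-- `c` lies on a cycle of `T_{3,k}` -/
def Periodic (k c : ℤ) : Prop := ∃ p : ℕ, 1 ≤ p ∧ (T k)^[p] c = c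

/-- the integers whose orbit passes through `c` -/
def Basin (k c : ℤ) : Set ℤ := {n | ∃ j : ℕ, (T k)^[j] n = c}

/-- `a` and `b` agree modulo `g` up to a factor `2 ^ i * 3 ^ j`. -/
def Rel (g a b : ℤ) : Prop := ∃ i j : ℕ, a ≡ 2 ^ i * 3 ^ j * b [ZMOD g]

/-- among the integers of sign `s` (`s = 1` or `s = -1`) those which lie in `A` and are congruent to
`a` modulo `M` have the natural density `δ` -/
def HasDensity (s : ℤ) (A : Set ℤ) (M : ℕ) (a : ℤ) (δ : ℝ) : Prop :=
  Tendsto (fun N : ℕ => ({n : ℤ | 0 < s * n ∧ s * n ≤ N ∧ n ∈ A ∧ n ≡ a [ZMOD M]}.ncard : ℝ) / N)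
    atTop (𝓝 δ)

/-- The conclusion for one set `A`: for every modulus `M` the part of `A` in each residue class
modulo `M` has a natural density, which does not change when the residue is multiplied by `2` or `3`
modulo `gcd (M, k)`, and which is positive for the residue of every element of `A` of sign `s` prime
to `3`. -/
def Distributed (k s : ℤ) (A : Set ℤ) : Prop :=
  ∀ M : ℕ, 1 ≤ M → ∃ δ : ℤ → ℝ, (∀ a : ℤ, HasDensity s A M a (δ a)) ∧
    (∀ a b : ℤ, Rel (Int.gcd M k) a b → δ a = δ b) ∧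
    (∀ a x : ℤ, x ∈ A → 0 < s * x → ¬ (3 : ℤ) ∣ x → Rel (Int.gcd M k) a x → 0 < δ a)

theorem count_eq {s : ℤ} (hs : s = 1 ∨ s = -1) (A : Set ℤ) (M : ℕ) (a : ℤ) (N : ℕ) :
    ({n : ℤ | 0 < s * n ∧ s * n ≤ N ∧ n ∈ A ∧ n ≡ a [ZMOD M]}.ncard : ℝ) =
      Pool.Agent.H284R3.RD.cnt {x | s * x ∈ A} M (s * a) N := by
  classical
  have hss : s * s = 1 := by rcases hs with rfl | rfl <;> norm_num
  unfold Pool.Agent.H284R3.RD.cnt
  rw [← Set.ncard_coe_finset]
  congr 1
  symm
  apply Set.ncard_congr (fun (n : ℕ) _ => s * (n : ℤ))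
  · intro n hn
    simp only [Finset.coe_filter, Finset.mem_Icc, Set.mem_ofPred_eq] at hn ⊢
    obtain ⟨h1, h2, h3⟩ := hn
    have h4 : s * (s * (n : ℤ)) = n := by rw [← mul_assoc, hss, one_mul]
    rw [h4]
    refine ⟨by omega, by omega, h2, ?_⟩
    have h5 := h3.mul_left s
    rwa [← mul_assoc, hss, one_mul] at h5
  · intro n m _ _ h
    have h5 : s * (s * (n : ℤ)) = s * (s * (m : ℤ)) := by rw [h]
    rw [← mul_assoc, ← mul_assoc, hss, one_mul, one_mul] at h5
    exact_mod_cast h5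
  · intro x hx
    simp only [Set.mem_ofPred_eq] at hx
    obtain ⟨h1, h2, h3, h4⟩ := hx
    have h5 : ((s * x).toNat : ℤ) = s * x := Int.toNat_of_nonneg h1.le
    refine ⟨(s * x).toNat, ?_, ?_⟩
    · simp only [Finset.coe_filter, Finset.mem_Icc, Set.mem_ofPred_eq]
      rw [h5]
      refine ⟨by omega, ?_, h4.mul_left s⟩
      rw [← mul_assoc, hss, one_mul]; exact h3
    · rw [h5, ← mul_assoc, hss, one_mul]

theorem main {k : ℤ} (hk : k % 6 = 1 ∨ k % 6 = 5) {A : Set ℤ} (hA : ∀ x, x ∈ A ↔ T k x ∈ A)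
    {s : ℤ} (hs : s = 1 ∨ s = -1) : Distributed k s A := by
  intro M hM
  have hodd : Odd k := by rw [Int.odd_iff]; omega
  have hk3 : ¬ (3 : ℤ) ∣ k := by omega
  have hkc : IsCoprime k 3 := ((Int.prime_three.coprime_iff_not_dvd).mpr hk3).symm
  have hss : s * s = 1 := by rcases hs with rfl | rfl <;> norm_num
  have hd : (s * k) % 2 = 1 := by rcases hs with rfl | rfl <;> omega
  have hd3 : ¬ (3 : ℤ) ∣ s * k := by rcases hs with rfl | rfl <;> omega
  have hnat : (s * k).natAbs = k.natAbs := by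
    rw [Int.natAbs_mul]; rcases hs with rfl | rfl <;> simp
  have hgcd : ((Int.gcd M k : ℕ) : ℤ) = ((Nat.gcd M (s * k).natAbs : ℕ) : ℤ) := by
    rw [hnat]; rfl
  have hInv : Pool.Agent.H284R3.RD.Inv (s * k) {x | s * x ∈ A} :=
    Pool.Agent.H499R2.ND.side_inv hodd hs (S := A) hA
  -- the union of classes
  have hgk : ((Int.gcd M k : ℕ) : ℤ) ∣ k := Int.gcd_dvd_right _ _
  have hS : ∀ a : ℤ, Pool.Agent.H499R2.ND.Inv k {x | x ∈ A ∧ Rel (Int.gcd M k) x a} := by
    intro a x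
    have hg2 : ((Int.gcd M k : ℕ) : ℤ) % 2 = 1 := by
      obtain ⟨w, hw⟩ := hgk
      have h5 : (((Int.gcd M k : ℕ) : ℤ) * w) % 2 = 1 := by rw [← hw]; omega
      rcases Int.emod_two_eq_zero_or_one ((Int.gcd M k : ℕ) : ℤ) with h6 | h6
      · exfalso
        rw [Int.mul_emod, h6] at h5
        simp at h5
      · exact h6
    have hg3 : ¬ (3 : ℤ) ∣ ((Int.gcd M k : ℕ) : ℤ) := fun h => hk3 (h.trans hgk)
    have hrel : Rel (Int.gcd M k) (T k x) a ↔ Rel (Int.gcd M k) x a := by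
      have h7 : Pool.Agent.H284R3.RD.Rel ((Int.gcd M k : ℕ) : ℤ) (T k x) x := by
        have h8 := Pool.Agent.H284R3.RD.rel_T (d := k) (by omega) hk3 x
        obtain ⟨i, j, hij⟩ := h8
        exact ⟨i, j, hij.of_dvd hgk⟩
      constructor
      · intro h9
        exact (Pool.Agent.H284R3.RD.Rel.symm hg2 hg3 h7).trans h9
      · intro h9
        exact Pool.Agent.H284R3.RD.Rel.trans h7 h9
    constructor
    · rintro ⟨h1, h2⟩
      exact ⟨(hA x).mp h1, hrel.mpr h2⟩
    · rintro ⟨h1, h2⟩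
      exact ⟨(hA x).mpr h1, hrel.mp h2⟩
  have key : ∀ a : ℤ, ∃ (l : ℝ) (n : ℕ), 1 ≤ n ∧ HasDensity s A M a (l / n) ∧
      Pool.Agent.H499R2.ND.HD s {x | x ∈ A ∧ Rel (Int.gcd M k) x a} l := by
    intro a
    obtain ⟨l, _, _, hl⟩ := Pool.Agent.H499R2.ND.dens_side hodd hkc hs (hS a)
    have h1 := Pool.Agent.H499R2.ND.HD_ncard hs hl
    have h2 : Tendsto (fun N : ℕ => Pool.Agent.H284R3.RD.cnt
        {x | x ∈ {x | s * x ∈ A} ∧ Pool.Agent.H284R3.RD.Rel
          ((Nat.gcd M (s * k).natAbs : ℕ) : ℤ) (s * x) a} 1 0 N / N) atTop (𝓝 l) := by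
      refine h1.congr (fun N => ?_)
      congr 1
      have h3 := count_eq hs {x | x ∈ A ∧ Rel (Int.gcd M k) x a} 1 0 N
      rw [mul_zero] at h3
      have h4 : {n : ℤ | 0 < s * n ∧ s * n ≤ N ∧ n ∈ {x | x ∈ A ∧ Rel (Int.gcd M k) x a} ∧
          n ≡ 0 [ZMOD ((1 : ℕ) : ℤ)]} =
          {n : ℤ | 0 < s * n ∧ s * n ≤ N ∧ n ∈ {x | x ∈ A ∧ Rel (Int.gcd M k) x a}} := by
        ext n
        constructor
        · rintro ⟨h5, h6, h7, _⟩; exact ⟨h5, h6, h7⟩
        · rintro ⟨h5, h6, h7⟩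
          exact ⟨h5, h6, h7, by rw [Nat.cast_one]; exact Int.modEq_one⟩
      rw [h4] at h3
      rw [h3]
      have h5 : {x : ℤ | s * x ∈ {x | x ∈ A ∧ Rel (Int.gcd M k) x a}} =
          {x | x ∈ {x | s * x ∈ A} ∧ Pool.Agent.H284R3.RD.Rel
          ((Nat.gcd M (s * k).natAbs : ℕ) : ℤ) (s * x) a} := by
        rw [← hgcd]; rfl
      rw [h5]
    obtain ⟨n, hn, h3⟩ := Pool.Agent.H284R3.RD.class_density hd hd3 hInv hM hs a h2
    refine ⟨l, n, hn, ?_, hl⟩
    unfold HasDensity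
    refine h3.congr (fun N => ?_)
    rw [count_eq hs]
  choose l n hn hdens hHD using key
  refine ⟨fun a => l a / n a, hdens, ?_, ?_⟩
  · intro a b hab
    obtain ⟨i, j, hij⟩ := hab
    have h1 : Pool.Agent.H284R3.RD.Sim
        (Pool.Agent.H284R3.RD.cnt {x | s * x ∈ A} M (s * a))
        (Pool.Agent.H284R3.RD.cnt {x | s * x ∈ A} M (s * b)) := by
      apply Pool.Agent.H284R3.RD.class_main hd hd3 hInv hM (i := i) (j := j)
      rw [← hgcd]
      have h2 := hij.mul_left s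
      have h3 : s * (2 ^ i * 3 ^ j * b) = 2 ^ i * 3 ^ j * (s * b) := by ring
      rwa [h3] at h2
    have h2 := hdens a
    have h3 := hdens b
    unfold HasDensity at h2 h3
    simp only [count_eq hs] at h2 h3
    exact tendsto_nhds_unique (h1.tendsto h2) h3
  · intro a x hx hsx hx3 hax
    have h1 : x ∈ {x | x ∈ A ∧ Rel (Int.gcd M k) x a} := by
      refine ⟨hx, ?_⟩
      have hg2 : ((Int.gcd M k : ℕ) : ℤ) % 2 = 1 := by
        obtain ⟨w, hw⟩ := hgk
        have h5 : (((Int.gcd M k : ℕ) : ℤ) * w) % 2 = 1 := by rw [← hw]; omega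
        rcases Int.emod_two_eq_zero_or_one ((Int.gcd M k : ℕ) : ℤ) with h6 | h6
        · exfalso
          rw [Int.mul_emod, h6] at h5
          simp at h5
        · exact h6
      exact Pool.Agent.H284R3.RD.Rel.symm hg2 (fun h => hk3 (h.trans hgk)) hax
    have h2 := Pool.Agent.H499R2.ND.class_pos hodd hk3 hs (hS a) h1 hsx hx3 (hHD a)
    have h3 : (0 : ℝ) < n a := by exact_mod_cast hn a
    positivity

theorem evper_inv (k x : ℤ) : x ∈ {n | EvPer k n} ↔ T k x ∈ {n | EvPer k n} := by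
  constructor
  · rintro ⟨m, p, hp, h⟩
    refine ⟨m, p, hp, ?_⟩
    rw [← Function.iterate_succ_apply, ← Function.iterate_succ_apply,
      Function.iterate_succ_apply', Function.iterate_succ_apply', h]
  · rintro ⟨m, p, hp, h⟩
    refine ⟨m + 1, p, hp, ?_⟩
    rw [← Function.iterate_succ_apply, ← Function.iterate_succ_apply] at h
    rw [show m + 1 + p = (m + p).succ by omega]
    exact h

theorem basin_inv {k c : ℤ} (hc : Periodic k c) (x : ℤ) : x ∈ Basin k c ↔ T k x ∈ Basin k c := by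
  constructor
  · rintro ⟨j, hj⟩
    rcases j with _ | j
    · obtain ⟨p, hp, hpc⟩ := hc
      have hx : x = c := hj
      refine ⟨p - 1, ?_⟩
      rw [← Function.iterate_succ_apply, show (p - 1).succ = p by omega, hx, hpc]
    · exact ⟨j, by rwa [Function.iterate_succ_apply] at hj⟩
  · rintro ⟨j, hj⟩
    exact ⟨j + 1, by rwa [Function.iterate_succ_apply]⟩

/-- Let `k` be congruent to `1` or `5` mod `6`, `s = 1` or `s = -1`, and let `A` be a set of integers
with `x ∈ A ↔ T x ∈ A` for all `x`, for example the set of the integers with eventually periodic orbit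
or the basin of a cycle.  Then for every modulus `M` (prime to `k` or not) and every residue `a` the set
of the integers of sign `s` in `A` which are congruent to `a` modulo `M` has a natural density
`δ a`; one has `δ a = δ b` whenever `a` and `b` agree modulo `gcd (M, k)` up to a factor `2^i 3^j`; and
`δ a > 0` if `A` contains an integer of sign `s` prime to `3` which agrees with `a` modulo
`gcd (M, k)` up to such a factor. -/
theorem result (k : ℤ) (hk : k % 6 = 1 ∨ k % 6 = 5) (s : ℤ) (hs : s = 1 ∨ s = -1) :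
    (∀ A : Set ℤ, (∀ x, x ∈ A ↔ T k x ∈ A) → Distributed k s A) ∧
    Distributed k s {n | EvPer k n} ∧
    (∀ c : ℤ, Periodic k c → Distributed k s (Basin k c)) :=
  ⟨fun _ hA => main hk hA hs, main hk (evper_inv k) hs,
    fun _ hc => main hk (fun x => basin_inv hc x) hs⟩

end Pool.Agent.Results.MP_7f88e4_nt.ResidueClasses
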